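import Pool.Agent.TBP.StmtsC
import Pool.Agent.Helper69_Weyl.Divisor

/-!
Squad TBP, row FM2: final form of THEOREM M.
-/

set_option autoImplicit false

namespace Pool.Agent.TBP.H26

open Finset

lemma fm2_WW_ge {J : ℕ} (hJ : 1 ≤ J) : J ≤ WW J := by
  have h2 : 2 ∣ primorial (2 ^ J) := by
    refine Nat.prime_two.dvd_primorial_iff.2 ?_
    calc 2 = 2 ^ 1 := by norm_num
      _ ≤ 2 ^ J := Nat.pow_le_pow_right (by norm_num) hJ
  have h3 : 2 ≤ primorial (2 ^ J) := Nat.le_of_dvd (primorial_pos _) h2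
  have h4 : 2 ^ (J + 1) ≤ WW J := Nat.pow_le_pow_left h3 _
  have h5 : J + 1 < 2 ^ (J + 1) := Nat.lt_two_pow_self
  omega

lemma fm2_lw_ge (J : ℕ) : J ≤ lw J 0 := by
  unfold lw
  have h1 : J < 2 ^ J := Nat.lt_two_pow_self
  have h2 : 2 ^ J ≤ 2 ^ (J * 2 ^ (J - 0)) := by
    apply Nat.pow_le_pow_right (by norm_num)
    exact Nat.le_mul_of_pos_right _ (by positivity)
  omega

lemma fm2_eta {B η : ℝ} (hB : Real.log 2 < B) (hB2 : B ≤ Real.exp 1 * Real.log 2)
    (hη : 1 - ((B / Real.log 2) * Real.log (B / Real.log 2) - B / Real.log 2 + 1) < η) :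
    0 ≤ η := by
  have hl2 : 0 < Real.log 2 := Real.log_pos (by norm_num)
  have hx0 : 0 < B / Real.log 2 := div_pos (hl2.trans hB) hl2
  have hxe : B / Real.log 2 ≤ Real.exp 1 := by
    rw [div_le_iff₀ hl2]
    exact hB2
  have hlog : Real.log (B / Real.log 2) ≤ 1 := by
    have := Real.log_le_log hx0 hxe
    rwa [Real.log_exp] at this
  nlinarith

/-- FM2 -/
theorem fm2 (h : Un2Stmt) : Fm2Stmt := by
  intro B η hB hB2 hη
  have hl2 : 0 < Real.log 2 := Real.log_pos (by norm_num)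
  have hB0 : 0 < B := lt_trans hl2 hB
  have hη0 : 0 ≤ η := fm2_eta hB hB2 hη
  obtain ⟨a, J0, C, ha, hC, hU⟩ := h B η hB hB2 hη
  refine ⟨C, hC, Set.infinite_of_not_bddAbove ?_⟩
  rintro ⟨N0, hN0⟩
  have ha0 : (0 : ℝ) < 8 * (a : ℝ) := by
    have : (1 : ℝ) ≤ (a : ℝ) := by exact_mod_cast ha
    linarith
  obtain ⟨δ, hδ⟩ : ∃ δ : ℝ, δ = B / (8 * (a : ℝ)) := ⟨_, rfl⟩
  have hδ0 : 0 < δ := by rw [hδ]; exact div_pos hB0 ha0
  obtain ⟨Cd, hCd, hdiv⟩ := Pool.Agent.Helper69_Weyl.exists_card_divisors_le δ hδ0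
  obtain ⟨J1, hJ1⟩ : ∃ J1 : ℕ, (max Cd 1) ^ (2 / B) ≤ (J1 : ℝ) := exists_nat_ge _
  obtain ⟨J, hJJ0, hJN, hJJ1⟩ : ∃ J : ℕ, J0 ≤ J ∧ N0 + 1 ≤ J ∧ J1 ≤ J :=
    ⟨max J0 (max (N0 + 1) J1), le_max_left _ _, (le_max_left _ _).trans (le_max_right _ _),
      (le_max_right _ _).trans (le_max_right _ _)⟩
  obtain ⟨hJ, hsize, t, ht1, htT, hK⟩ := hU J hJJ0
  have hWW := fm2_WW_ge hJ
  have hlw := fm2_lw_ge J
  have hlw1 : 1 ≤ lw J 0 := hJ.trans hlw
  have hWt : WW J ≤ WW J * t := Nat.le_mul_of_pos_right _ ht1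
  have hCdl : Cd ≤ ((lw J 0 : ℕ) : ℝ) ^ (B / 2) := by
    have h1 : (0 : ℝ) < max Cd 1 := lt_max_of_lt_right one_pos
    have h2 : max Cd 1 = ((max Cd 1) ^ (2 / B)) ^ (B / 2) := by
      rw [← Real.rpow_mul h1.le]
      have : 2 / B * (B / 2) = 1 := by field_simp
      rw [this, Real.rpow_one]
    calc Cd ≤ max Cd 1 := le_max_left _ _
      _ = ((max Cd 1) ^ (2 / B)) ^ (B / 2) := h2
      _ ≤ ((lw J 0 : ℕ) : ℝ) ^ (B / 2) := by
        apply Real.rpow_le_rpow (Real.rpow_nonneg h1.le _) _ (by positivity)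
        refine hJ1.trans ?_
        exact_mod_cast hJJ1.trans hlw
  have hmem : WW J * t ∈ {n : ℕ | ∀ K : ℕ, 1 ≤ K →
      (((Icc 1 K).filter (fun k : ℕ => k < n ∧ (k : ℝ) ^ B < ((n - k).divisors.card : ℝ))).card : ℝ)
        ≤ C * (K : ℝ) ^ η} := by
    intro K hK1
    have hm1 : 1 ≤ min K (lw J 0) := le_min hK1 hlw1
    have h1 := hK (min K (lw J 0)) hm1 (min_le_right _ _)
    have hsub : (Icc 1 K).filter (fun k : ℕ => k < WW J * t ∧
        (k : ℝ) ^ B < ((WW J * t - k).divisors.card : ℝ)) ⊆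
        (Icc 1 (min K (lw J 0))).filter
          (fun k : ℕ => (k : ℝ) ^ B < ((lf J (-1) k t).divisors.card : ℝ)) := by
      intro k hk
      rw [Finset.mem_filter, Finset.mem_Icc] at hk
      obtain ⟨⟨hk1, hkK⟩, hkn, hkB⟩ := hk
      have hlf : lf J (-1) k t = WW J * t - k := by
        unfold lf
        have : ((WW J : ℤ) * t + (-1) * k) = ((WW J * t - k : ℕ) : ℤ) := by
          push_cast [Nat.cast_sub hkn.le]
          ring
        rw [this, Int.natAbs_natCast]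
      rw [Finset.mem_filter, Finset.mem_Icc]
      refine ⟨⟨hk1, le_min hkK ?_⟩, ?_⟩
      · by_contra hgt
        have hgt2 : lw J 0 ≤ k := (not_le.mp hgt).le
        have hk0 : (0 : ℝ) < (k : ℝ) := by exact_mod_cast hk1
        have hx0 : WW J * t - k ≠ 0 := by omega
        have h4 := hdiv _ hx0
        have h5 : WW J * t - k ≤ k ^ (4 * a) := by
          calc WW J * t - k ≤ WW J * t := Nat.sub_le _ _
            _ ≤ WW J * TT a J := Nat.mul_le_mul_left _ htT
            _ ≤ (lw J 0) ^ (4 * a) := hsize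
            _ ≤ k ^ (4 * a) := Nat.pow_le_pow_left hgt2 _
        have h6 : ((WW J * t - k : ℕ) : ℝ) ^ δ ≤ (k : ℝ) ^ (B / 2) := by
          have h7 : ((WW J * t - k : ℕ) : ℝ) ≤ (k : ℝ) ^ (4 * a) := by exact_mod_cast h5
          have h8 : ((WW J * t - k : ℕ) : ℝ) ^ δ ≤ ((k : ℝ) ^ (4 * a)) ^ δ :=
            Real.rpow_le_rpow (Nat.cast_nonneg _) h7 hδ0.le
          refine h8.trans (le_of_eq ?_)
          rw [← Real.rpow_natCast, ← Real.rpow_mul hk0.le]
          congr 1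
          rw [hδ]
          have : (a : ℝ) ≠ 0 := by
            intro h0
            rw [h0] at ha0
            norm_num at ha0
          push_cast
          field_simp
          ring
        have h9 : Cd ≤ (k : ℝ) ^ (B / 2) := by
          refine hCdl.trans ?_
          apply Real.rpow_le_rpow (Nat.cast_nonneg _) _ (by positivity)
          exact_mod_cast hgt2
        have h10 : ((WW J * t - k).divisors.card : ℝ) ≤ (k : ℝ) ^ B := by
          calc ((WW J * t - k).divisors.card : ℝ) ≤ Cd * ((WW J * t - k : ℕ) : ℝ) ^ δ := h4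
            _ ≤ (k : ℝ) ^ (B / 2) * (k : ℝ) ^ (B / 2) :=
              mul_le_mul h9 h6 (Real.rpow_nonneg (Nat.cast_nonneg _) _)
                (Real.rpow_nonneg hk0.le _)
            _ = (k : ℝ) ^ B := by
              rw [← Real.rpow_add hk0]
              congr 1
              ring
        linarith
      · rw [hlf]
        exact hkB
    calc (((Icc 1 K).filter (fun k : ℕ => k < WW J * t ∧
        (k : ℝ) ^ B < ((WW J * t - k).divisors.card : ℝ))).card : ℝ)
        ≤ (((Icc 1 (min K (lw J 0))).filter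
          (fun k : ℕ => (k : ℝ) ^ B < ((lf J (-1) k t).divisors.card : ℝ))).card : ℝ) := by
          exact_mod_cast Finset.card_le_card hsub
      _ ≤ C * ((min K (lw J 0) : ℕ) : ℝ) ^ η := h1
      _ ≤ C * (K : ℝ) ^ η := by
        apply mul_le_mul_of_nonneg_left _ hC.le
        apply Real.rpow_le_rpow (Nat.cast_nonneg _) _ hη0
        exact_mod_cast min_le_left _ _
  have := hN0 hmem
  omega

end Pool.Agent.TBP.H26
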