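import Pool.Agent.TBP.StmtsA

/-!
# Squad TBP, row PAR: choice of the truncation parameters
-/

set_option autoImplicit false

namespace Pool.Agent.TBP.H26

open Finset Pool.Agent.TBP

theorem par_kp_pos {θ : ℝ} (hθ : 0 < θ) (j : ℕ) : 1 ≤ kp θ j := by
  unfold kp
  apply Nat.le_floor
  rw [Nat.cast_one]
  exact Real.one_le_rpow (by norm_num) (by positivity)

theorem par_kp_le (θ : ℝ) (j : ℕ) : (kp θ j : ℝ) ≤ (2 : ℝ) ^ (θ * j) := by
  unfold kp
  exact Nat.floor_le (Real.rpow_nonneg (by norm_num) _)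

/-- part (i) -/
theorem par_one {M κ c : ℝ} (j n : ℕ) (hM : 0 ≤ M) (hκ : 1 ≤ κ) (hc : 55 * (M + 1) ≤ c)
    (hn : (n : ℝ) = 2 * (c * κ + j + 2) + 1) :
    (M * κ) ^ n / (Nat.factorial n : ℝ) ≤
      Real.exp (-((j : ℝ) + 3)) * Real.exp (-(2 * (M * κ))) := by
  have hj : (0 : ℝ) ≤ j := Nat.cast_nonneg j
  have hc0 : 0 < c := by linarith
  have hcκ : c ≤ c * κ := by nlinarith
  have hn0 : (0 : ℝ) < n := by rw [hn]; nlinarith
  have hf : (0 : ℝ) < (Nat.factorial n : ℝ) := by exact_mod_cast Nat.factorial_pos n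
  have h1 : (n : ℝ) ^ n / (Nat.factorial n : ℝ) ≤ Real.exp n :=
    Real.pow_div_factorial_le_exp n hn0.le n
  -- `M κ ≤ e⁻⁴ n`
  have he1 : Real.exp 1 < 2.7182818286 := Real.exp_one_lt_d9
  have he4 : Real.exp 4 ≤ 55 := by
    have : Real.exp 4 = Real.exp 1 ^ 4 := by rw [← Real.exp_nat_mul]; norm_num
    rw [this]
    have h0 : (0 : ℝ) ≤ Real.exp 1 := (Real.exp_pos 1).le
    calc Real.exp 1 ^ 4 ≤ 2.7182818286 ^ 4 := pow_le_pow_left₀ h0 he1.le 4
      _ ≤ 55 := by norm_num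
  have h2 : M * κ * Real.exp 4 ≤ n := by
    have a1 : M * κ * Real.exp 4 ≤ M * κ * 55 :=
      mul_le_mul_of_nonneg_left he4 (by positivity)
    have a2 : M * κ * 55 ≤ c * κ := by nlinarith
    rw [hn]
    nlinarith
  have h3 : M * κ ≤ n * Real.exp (-4) := by
    rw [Real.exp_neg, ← div_eq_mul_inv, le_div_iff₀ (Real.exp_pos 4)]
    exact h2
  have h4 : (M * κ) ^ n ≤ (n : ℝ) ^ n * Real.exp (-4 * n) := by
    calc (M * κ) ^ n ≤ (n * Real.exp (-4)) ^ n := pow_le_pow_left₀ (by positivity) h3 n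
      _ = (n : ℝ) ^ n * Real.exp (-4 * n) := by
        rw [mul_pow, ← Real.exp_nat_mul]
        ring_nf
  have h5 : (M * κ) ^ n / (Nat.factorial n : ℝ) ≤ Real.exp n * Real.exp (-4 * n) := by
    calc (M * κ) ^ n / (Nat.factorial n : ℝ)
        ≤ ((n : ℝ) ^ n * Real.exp (-4 * n)) / (Nat.factorial n : ℝ) :=
          div_le_div_of_nonneg_right h4 hf.le
      _ = (n : ℝ) ^ n / (Nat.factorial n : ℝ) * Real.exp (-4 * n) := by ring
      _ ≤ Real.exp n * Real.exp (-4 * n) :=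
          mul_le_mul_of_nonneg_right h1 (Real.exp_pos _).le
  refine h5.trans ?_
  rw [← Real.exp_add, ← Real.exp_add]
  apply Real.exp_le_exp.2
  have h6 : M * κ ≤ c * κ := by nlinarith
  rw [hn]
  nlinarith

theorem par_sum (J : ℕ) : ∑ j ∈ range J, (2 * (j : ℝ) + 5) / 2 ^ j = 14 - (4 * J + 14) / 2 ^ J := by
  induction J with
  | zero => norm_num
  | succ J ih =>
    rw [sum_range_succ, ih]
    have : (0 : ℝ) < 2 ^ J := by positivity
    push_cast
    rw [pow_succ]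
    field_simp
    ring

theorem par : ParStmt := by
  intro θ M hθ hθ1 hM
  obtain ⟨c, hc⟩ : ∃ c : ℕ, 55 * (M + 1) ≤ (c : ℝ) := exists_nat_ge _
  obtain ⟨r, hr⟩ : ∃ r : ℝ, r = (2 : ℝ) ^ (θ - 1) := ⟨_, rfl⟩
  have hr0 : 0 < r := by rw [hr]; exact Real.rpow_pos_of_pos (by norm_num) _
  have hr1 : r < 1 := by
    rw [hr]
    exact Real.rpow_lt_one_of_one_lt_of_neg (by norm_num) (by linarith)
  obtain ⟨K, hK⟩ : ∃ K : ℕ, 2 * (c : ℝ) / (1 - r) + 14 ≤ (K : ℝ) := exists_nat_ge _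
  refine ⟨c, K, ?_, ?_⟩
  · intro j
    apply par_one j _ hM (by exact_mod_cast par_kp_pos hθ j) hc
    push_cast
    ring
  · intro J
    obtain ⟨e, he⟩ : ∃ e : ℕ → ℕ, e = fun j => 2 * (c * kp θ j + j + 2) + 1 := ⟨_, rfl⟩
    have h1 : ∏ j ∈ range J, (lw J j) ^ (2 * (c * kp θ j + j + 2) + 1) =
        2 ^ (∑ j ∈ range J, J * 2 ^ (J - j) * e j) := by
      rw [← Finset.prod_pow_eq_pow_sum]
      apply Finset.prod_congr rfl
      intro j _
      rw [he]
      unfold lw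
      rw [← pow_mul]
    have h2 : (lw J 0) ^ K = 2 ^ (J * 2 ^ J * K) := by
      unfold lw
      rw [← pow_mul, Nat.sub_zero]
    rw [h1, h2]
    apply Nat.pow_le_pow_right (by norm_num)
    have h3 : ((∑ j ∈ range J, J * 2 ^ (J - j) * e j : ℕ) : ℝ) ≤ ((J * 2 ^ J * K : ℕ) : ℝ) := by
      push_cast
      have h4 : ∀ j ∈ range J, (J : ℝ) * 2 ^ (J - j) * (e j : ℝ) ≤
          (J : ℝ) * 2 ^ J * (2 * (c : ℝ) * r ^ j + (2 * (j : ℝ) + 5) / 2 ^ j) := by
        intro j hj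
        have hjJ : j ≤ J := (mem_range.1 hj).le
        have h2j : (0 : ℝ) < 2 ^ j := by positivity
        have a1 : (2 : ℝ) ^ (J - j) = 2 ^ J / 2 ^ j := by
          rw [eq_div_iff h2j.ne', ← pow_add, Nat.sub_add_cancel hjJ]
        have a2 : (e j : ℝ) = 2 * (c : ℝ) * (kp θ j : ℝ) + (2 * (j : ℝ) + 5) := by
          rw [he]; push_cast; ring
        have a3 : (kp θ j : ℝ) / 2 ^ j ≤ r ^ j := by
          rw [div_le_iff₀ h2j]
          refine (par_kp_le θ j).trans (le_of_eq ?_)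
          rw [hr, ← Real.rpow_natCast ((2 : ℝ) ^ (θ - 1)) j, ← Real.rpow_mul (by norm_num),
            ← Real.rpow_natCast (2 : ℝ) j, ← Real.rpow_add (by norm_num)]
          congr 1
          ring
        rw [a1, a2]
        have a4 : (J : ℝ) * (2 ^ J / 2 ^ j) * (2 * (c : ℝ) * (kp θ j : ℝ) + (2 * (j : ℝ) + 5)) =
            (J : ℝ) * 2 ^ J * (2 * (c : ℝ) * ((kp θ j : ℝ) / 2 ^ j) + (2 * (j : ℝ) + 5) / 2 ^ j) := by
          field_simp
        rw [a4]
        apply mul_le_mul_of_nonneg_left _ (by positivity)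
        have a5 : 2 * (c : ℝ) * ((kp θ j : ℝ) / 2 ^ j) ≤ 2 * (c : ℝ) * r ^ j :=
          mul_le_mul_of_nonneg_left a3 (by positivity)
        linarith
      refine (Finset.sum_le_sum h4).trans ?_
      rw [← Finset.mul_sum]
      apply mul_le_mul_of_nonneg_left _ (by positivity)
      rw [Finset.sum_add_distrib, ← Finset.mul_sum, par_sum]
      have b1 : ∑ j ∈ range J, r ^ j ≤ 1 / (1 - r) := by
        rw [le_div_iff₀ (by linarith)]
        have := geom_sum_mul r J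
        have hrJ : 0 ≤ r ^ J := pow_nonneg hr0.le J
        nlinarith
      have b2 : 2 * (c : ℝ) * ∑ j ∈ range J, r ^ j ≤ 2 * (c : ℝ) * (1 / (1 - r)) :=
        mul_le_mul_of_nonneg_left b1 (by positivity)
      have b3 : 2 * (c : ℝ) * (1 / (1 - r)) = 2 * (c : ℝ) / (1 - r) := by ring
      have b4 : 0 ≤ (4 * (J : ℝ) + 14) / 2 ^ J := by positivity
      linarith
    exact_mod_cast h3

end Pool.Agent.TBP.H26
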